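import Pool.Agent.JumpDeg.Defs
import Pool.Agent.JumpDeg.Spector

/-!
# MP_e2473a_lc, Q1: every computable ordinal is realised

For every computable ordinal `α` there is a completely decomposable group with a proper `α`-th
jump degree.
-/

namespace Pool.Agent.Results.MP_e2473a_lc.AllComputableOrdinals

open JumpDeg

theorem result (α : Ordinal.{0}) (hα : IsComputableOrdinal α) :
    ∃ (G : Type) (_ : AddCommGroup G), CompletelyDecomposable G ∧ HasProperJumpDegree α G := by
  obtain ⟨r, hwo, hr, m, rfl⟩ := hα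
  obtain ⟨X, ⟨op, hop, hred⟩, hlow⟩ := core r m
  refine ⟨GG X, inferInstance, ⟨HH X, ⟨AddEquiv.refl _⟩⟩,
    ⟨degree (iterJump r (diagram op) m), ?_⟩, ?_⟩
  · constructor
    · exact ⟨op, r, hwo, m, hop, hr, rfl, rfl⟩
    · rintro d ⟨op', s, hs', m', hop', hs, hm', rfl⟩
      rw [← degree_iterJump_congr r s hr hs (diagram op') m m' hm'.symm, degree_le_iff]
      exact hred.trans (red_iterJump r (red_zero _) m)
  · rintro β hβ ⟨c, ⟨op₁, s, hs', m', hop₁, hs, hm', rfl⟩, hc⟩
    obtain ⟨k, hk⟩ := Ordinal.typein_surj r (hβ.trans (Ordinal.typein_lt_type r m))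
    have hkm : r k m := (Ordinal.typein_lt_typein r).1 (by rw [hk]; exact hβ)
    refine hlow k hkm op₁ hop₁ (fun op' hop' => ?_)
    rw [← degree_le_iff]
    have h1 := hc ⟨op', r, hwo, k, hop', hr, hk, rfl⟩
    rwa [degree_iterJump_congr s r hs hr (diagram op₁) m' k (by rw [hm', hk])] at h1

end Pool.Agent.Results.MP_e2473a_lc.AllComputableOrdinals
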